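import Mathlib

/-!
# From averages to single members of a sequence after discarding few members (abstract form)
-/

set_option autoImplicit false

namespace Pool.Agent.LL

open Filter Topology

/-- a slowly growing function -/
theorem IND_slow (P : ℕ → ℕ → Prop) (h0 : ∀ n, P 0 n) (hP : ∀ m, ∀ᶠ n in atTop, P m n) :
    ∃ m : ℕ → ℕ, Tendsto m atTop atTop ∧ ∀ n, P (m n) n := by
  classical
  have h1 : ∀ m, ∃ N, ∀ n ≥ N, P m n := fun m => eventually_atTop.1 (hP m)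
  choose N hN using h1
  set N' : ℕ → ℕ := fun m => if m = 0 then 0 else N m with hN'
  have hN2 : ∀ m n, N' m ≤ n → P m n := by
    intro m n h
    by_cases hm : m = 0
    · subst hm
      exact h0 n
    · simp only [hN', if_neg hm] at h
      exact hN m n h
  refine ⟨fun n => Nat.findGreatest (fun m => N' m ≤ n) n, ?_, ?_⟩
  · rw [tendsto_atTop]
    intro M
    filter_upwards [eventually_ge_atTop (max M (N' M))] with n hn
    exact Nat.le_findGreatest (le_trans (le_max_left _ _) hn) (le_trans (le_max_right _ _) hn)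
  · intro n
    have h2 : N' (Nat.findGreatest (fun m => N' m ≤ n) n) ≤ n :=
      Nat.findGreatest_spec (P := fun m => N' m ≤ n) (m := 0) (n := n) (Nat.zero_le _)
        (by simp [hN'])
    exact hN2 _ _ h2

theorem IND_growth : ∃ m : ℕ → ℕ, Tendsto m atTop atTop ∧
    ∀ n : ℕ, m n = 0 ∨ 8 * ((m n : ℝ) + 1) ^ (m n) ≤ (n : ℝ) ^ (1 / ((m n : ℝ) + 1)) := by
  refine IND_slow (fun m n => m = 0 ∨ 8 * ((m : ℝ) + 1) ^ m ≤ (n : ℝ) ^ (1 / ((m : ℝ) + 1)))
    (fun n => Or.inl rfl) (fun m => ?_)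
  have h1 : Tendsto (fun n : ℕ => (n : ℝ) ^ (1 / ((m : ℝ) + 1))) atTop atTop :=
    (tendsto_rpow_atTop (by positivity)).comp tendsto_natCast_atTop_atTop
  filter_upwards [h1.eventually_ge_atTop (8 * ((m : ℝ) + 1) ^ m)] with n hn
  exact Or.inr hn

/-- the class of `i`: same window and same cell of side `1/m` -/
def ICl (s : ℕ → ℝ) (v : ℕ → ℕ → ℝ) (m : ℕ → ℕ) (i : ℕ) : Set ℕ :=
  {i' | ⌊s i'⌋ = ⌊s i⌋ ∧ ∀ j < m ⌊s i⌋.toNat,
    ⌊(m ⌊s i⌋.toNat : ℝ) * v i' j⌋₊ = ⌊(m ⌊s i⌋.toNat : ℝ) * v i j⌋₊}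

theorem ICl_fin (s : ℕ → ℝ) (hs : Tendsto s atTop atTop) (n : ℤ) : {i | ⌊s i⌋ = n}.Finite := by
  obtain ⟨N, hN⟩ := eventually_atTop.1 (hs.eventually_ge_atTop ((n : ℝ) + 1))
  refine (Set.finite_lt_nat N).subset fun i hi => ?_
  by_contra hc
  have h1 := hN i (not_lt.1 hc)
  have h2 : s i < (n : ℝ) + 1 := by
    have h3 : ⌊s i⌋ = n := hi
    rw [← h3]
    exact Int.lt_floor_add_one (s i)
  linarith

theorem ICl_finite (s : ℕ → ℝ) (v : ℕ → ℕ → ℝ) (m : ℕ → ℕ) (hs : Tendsto s atTop atTop) (i : ℕ) :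
    (ICl s v m i).Finite := (ICl_fin s hs ⌊s i⌋).subset fun _ h => h.1

/-- the exceptional indices -/
def IEx (s : ℕ → ℝ) (v : ℕ → ℕ → ℝ) (m : ℕ → ℕ) (b : ℝ) : Set ℕ :=
  {i | ((ICl s v m i).ncard : ℝ) * (8 * ((m ⌊s i⌋.toNat : ℝ) + 1) ^ (m ⌊s i⌋.toNat)) < (⌊s i⌋ : ℝ) ^ b}

theorem IEx_win (s : ℕ → ℝ) (v : ℕ → ℕ → ℝ) (m : ℕ → ℕ) (b : ℝ) (hs : Tendsto s atTop atTop)
    (hv : ∀ i j, 0 ≤ v i j ∧ v i j ≤ 1) (n : ℤ) (hn : 0 ≤ n) :
    8 * (({i | i ∈ IEx s v m b ∧ ⌊s i⌋ = n}.ncard : ℕ) : ℝ) ≤ (n : ℝ) ^ b := by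
  classical
  have hfin : {i | i ∈ IEx s v m b ∧ ⌊s i⌋ = n}.Finite := (ICl_fin s hs n).subset fun _ h => h.2
  set A : Finset ℕ := hfin.toFinset with hA
  have hAm : ∀ i, i ∈ A ↔ i ∈ IEx s v m b ∧ ⌊s i⌋ = n := fun i => by
    rw [hA, Set.Finite.mem_toFinset]
    exact Iff.rfl
  have hcard : {i | i ∈ IEx s v m b ∧ ⌊s i⌋ = n}.ncard = A.card := Set.ncard_eq_toFinset_card _ hfin
  rw [hcard]
  set M : ℕ := m n.toNat with hM
  set B : ℝ := ((M : ℝ) + 1) ^ M with hB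
  have hB0 : 0 < B := by rw [hB]; positivity
  have hnb : 0 ≤ (n : ℝ) ^ b := Real.rpow_nonneg (by exact_mod_cast hn) _
  -- the code of an index
  let code : ℕ → (Fin M → Fin (M + 1)) := fun i j =>
    ⟨⌊(M : ℝ) * v i j⌋₊, by
      have h1 : (M : ℝ) * v i j ≤ M := by
        have := (hv i j).2
        have h2 : (0 : ℝ) ≤ M := Nat.cast_nonneg _
        nlinarith
      have h3 : ⌊(M : ℝ) * v i j⌋₊ ≤ M := by
        have := Nat.floor_le_floor h1
        rwa [Nat.floor_natCast] at this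
      omega⟩
  have hfib : ∀ c ∈ (Finset.univ : Finset (Fin M → Fin (M + 1))),
      (A.filter fun i => code i = c).card ≤ ⌊(n : ℝ) ^ b / (8 * B)⌋₊ := by
    intro c _
    rcases (A.filter fun i => code i = c).eq_empty_or_nonempty with h0 | ⟨i, hi⟩
    · rw [h0]
      exact Nat.zero_le _
    · rw [Finset.mem_filter, hAm] at hi
      obtain ⟨⟨hiE, hin⟩, hic⟩ := hi
      apply Nat.le_floor
      have h1 : ((ICl s v m i).ncard : ℝ) * (8 * B) < (n : ℝ) ^ b := by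
        have h2 : ((ICl s v m i).ncard : ℝ) * (8 * ((m ⌊s i⌋.toNat : ℝ) + 1) ^ (m ⌊s i⌋.toNat)) <
          (⌊s i⌋ : ℝ) ^ b := hiE
        rw [hin] at h2
        exact h2
      have h3 : (A.filter fun i => code i = c).card ≤ (ICl s v m i).ncard := by
        rw [← Set.ncard_coe_finset]
        refine Set.ncard_le_ncard ?_ (ICl_finite s v m hs i)
        intro i' hi'
        have hi2 : i' ∈ A.filter fun i => code i = c := hi'
        rw [Finset.mem_filter, hAm] at hi2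
        obtain ⟨⟨-, hin'⟩, hic'⟩ := hi2
        refine ⟨by rw [hin', hin], ?_⟩
        rw [hin]
        intro j hj
        have h4 : code i' ⟨j, hj⟩ = code i ⟨j, hj⟩ := by rw [hic', hic]
        exact congrArg Fin.val h4
      rw [le_div_iff₀ (by positivity)]
      calc ((A.filter fun i => code i = c).card : ℝ) * (8 * B) ≤ ((ICl s v m i).ncard : ℝ) * (8 * B) :=
            mul_le_mul_of_nonneg_right (by exact_mod_cast h3) (by positivity)
        _ ≤ (n : ℝ) ^ b := h1.le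
  have hle := Finset.card_le_mul_card_image_of_maps_to (s := A)
    (t := (Finset.univ : Finset (Fin M → Fin (M + 1)))) (f := code) (fun _ _ => Finset.mem_univ _)
    _ hfib
  have hcd : ((Finset.univ : Finset (Fin M → Fin (M + 1))).card : ℝ) = B := by
    rw [Finset.card_univ, Fintype.card_fun, Fintype.card_fin, Fintype.card_fin, hB]
    push_cast
    ring
  have h5 : (A.card : ℝ) ≤ ((n : ℝ) ^ b / (8 * B)) * B := by
    calc (A.card : ℝ) ≤ (⌊(n : ℝ) ^ b / (8 * B)⌋₊ : ℝ) *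
          ((Finset.univ : Finset (Fin M → Fin (M + 1))).card : ℝ) := by exact_mod_cast hle
      _ ≤ ((n : ℝ) ^ b / (8 * B)) * B := by
        rw [hcd]
        exact mul_le_mul_of_nonneg_right (Nat.floor_le (by positivity)) hB0.le
  have h6 : ((n : ℝ) ^ b / (8 * B)) * B = (n : ℝ) ^ b / 8 := by
    field_simp
  rw [h6] at h5
  linarith

theorem IND_abs (s : ℕ → ℝ) (v : ℕ → ℕ → ℝ) (b : ℝ) (hs : Tendsto s atTop atTop)
    (hv : ∀ i j, 0 ≤ v i j ∧ v i j ≤ 1) (hb0 : 0 ≤ b) (hb1 : b ≤ 1) :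
    ∃ Ex : Set ℕ, (∀ r : ℝ, 1 ≤ r → {i | i ∈ Ex ∧ r ≤ s i ∧ s i ≤ r + 1}.Finite ∧
      2 * (({i | i ∈ Ex ∧ r ≤ s i ∧ s i ≤ r + 1}.ncard : ℕ) : ℝ) ≤ r ^ b) ∧
    ∀ q : ℕ → ℕ, Tendsto q atTop atTop → (∀ k, q k ∉ Ex) → ∃ (r : ℕ → ℝ) (S : ℕ → Finset ℕ),
      Tendsto r atTop atTop ∧ (∀ k, (S k).Nonempty) ∧ (∀ k, ∀ i ∈ S k, r k ≤ s i ∧ s i ≤ r k + 1) ∧
      (∀ b' < b, ∀ᶠ k in atTop, r k ^ b' ≤ ((S k).card : ℝ)) ∧
      ∀ (j : ℕ) (ε : ℝ), 0 < ε → ∀ᶠ k in atTop, ∀ i ∈ S k, |v i j - v (q k) j| ≤ ε := by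
  classical
  obtain ⟨m, hm, hmP⟩ := IND_growth
  refine ⟨IEx s v m b, ?_, ?_⟩
  · intro r hr
    have hr0 : 0 ≤ r := by linarith
    have hsub : {i | i ∈ IEx s v m b ∧ r ≤ s i ∧ s i ≤ r + 1} ⊆
        {i | i ∈ IEx s v m b ∧ ⌊s i⌋ = ⌊r⌋} ∪ {i | i ∈ IEx s v m b ∧ ⌊s i⌋ = ⌊r⌋ + 1} := by
      rintro i ⟨hE, h1, h2⟩
      have h3 : ⌊r⌋ ≤ ⌊s i⌋ := Int.floor_le_floor h1
      have h4 : ⌊s i⌋ ≤ ⌊r⌋ + 1 := by
        have h5 := Int.floor_le_floor h2
        rwa [Int.floor_add_one] at h5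
      rcases eq_or_lt_of_le h3 with h5 | h5
      · exact Or.inl ⟨hE, h5.symm⟩
      · exact Or.inr ⟨hE, by omega⟩
    have f1 : {i | i ∈ IEx s v m b ∧ ⌊s i⌋ = ⌊r⌋}.Finite := (ICl_fin s hs _).subset fun _ h => h.2
    have f2 : {i | i ∈ IEx s v m b ∧ ⌊s i⌋ = ⌊r⌋ + 1}.Finite :=
      (ICl_fin s hs _).subset fun _ h => h.2
    refine ⟨(f1.union f2).subset hsub, ?_⟩
    have hfl : (0 : ℤ) ≤ ⌊r⌋ := Int.floor_nonneg.2 hr0
    have c1 := IEx_win s v m b hs hv ⌊r⌋ hfl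
    have c2 := IEx_win s v m b hs hv (⌊r⌋ + 1) (by omega)
    have c3 : ({i | i ∈ IEx s v m b ∧ r ≤ s i ∧ s i ≤ r + 1}.ncard : ℝ) ≤
        ({i | i ∈ IEx s v m b ∧ ⌊s i⌋ = ⌊r⌋}.ncard : ℝ) +
          ({i | i ∈ IEx s v m b ∧ ⌊s i⌋ = ⌊r⌋ + 1}.ncard : ℝ) := by
      have h1 := Set.ncard_le_ncard hsub (f1.union f2)
      have h2 := Set.ncard_union_le {i | i ∈ IEx s v m b ∧ ⌊s i⌋ = ⌊r⌋}
        {i | i ∈ IEx s v m b ∧ ⌊s i⌋ = ⌊r⌋ + 1}
      exact_mod_cast h1.trans h2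
    have c4 : ((⌊r⌋ : ℤ) : ℝ) ^ b ≤ r ^ b :=
      Real.rpow_le_rpow (by exact_mod_cast hfl) (Int.floor_le r) hb0
    have c5 : (((⌊r⌋ + 1 : ℤ)) : ℝ) ^ b ≤ 2 * r ^ b := by
      have h1 : (((⌊r⌋ + 1 : ℤ)) : ℝ) ≤ 2 * r := by
        push_cast
        have := Int.floor_le r
        linarith
      calc (((⌊r⌋ + 1 : ℤ)) : ℝ) ^ b ≤ (2 * r) ^ b :=
            Real.rpow_le_rpow (by exact_mod_cast (by omega : (0 : ℤ) ≤ ⌊r⌋ + 1)) h1 hb0
        _ = 2 ^ b * r ^ b := Real.mul_rpow (by norm_num) hr0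
        _ ≤ 2 * r ^ b := by
          refine mul_le_mul_of_nonneg_right ?_ (Real.rpow_nonneg hr0 _)
          calc (2 : ℝ) ^ b ≤ 2 ^ (1 : ℝ) := Real.rpow_le_rpow_of_exponent_le (by norm_num) hb1
            _ = 2 := Real.rpow_one 2
    have c6 : 0 ≤ r ^ b := Real.rpow_nonneg hr0 _
    linarith
  · intro q hq hqE
    have hsq : Tendsto (fun k => s (q k)) atTop atTop := hs.comp hq
    have hfl : Tendsto (fun k => ⌊s (q k)⌋) atTop atTop := tendsto_floor_atTop.comp hsq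
    have hnt : Tendsto (fun k => ⌊s (q k)⌋.toNat) atTop atTop := by
      rw [tendsto_atTop]
      intro n
      filter_upwards [hfl.eventually_ge_atTop (n : ℤ)] with k hk
      omega
    have hmt : Tendsto (fun k => m ⌊s (q k)⌋.toNat) atTop atTop := hm.comp hnt
    refine ⟨fun k => (⌊s (q k)⌋ : ℝ), fun k => (ICl_finite s v m hs (q k)).toFinset, ?_, ?_, ?_, ?_, ?_⟩
    · exact tendsto_intCast_atTop_atTop.comp hfl
    · intro k
      exact ⟨q k, by rw [Set.Finite.mem_toFinset]; exact ⟨rfl, fun _ _ => rfl⟩⟩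
    · intro k i hi
      rw [Set.Finite.mem_toFinset] at hi
      have h1 : ⌊s i⌋ = ⌊s (q k)⌋ := hi.1
      refine ⟨?_, ?_⟩
      · show ((⌊s (q k)⌋ : ℤ) : ℝ) ≤ s i
        rw [← h1]
        exact Int.floor_le _
      · show s i ≤ ((⌊s (q k)⌋ : ℤ) : ℝ) + 1
        rw [← h1]
        exact (Int.lt_floor_add_one _).le
    · intro b' hb'
      have hmr : Tendsto (fun k => (m ⌊s (q k)⌋.toNat : ℝ) + 1) atTop atTop :=
        tendsto_atTop_add_const_right _ _ (tendsto_natCast_atTop_atTop.comp hmt)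
      filter_upwards [hfl.eventually_ge_atTop 1, hmt.eventually_ge_atTop 1,
        hmr.eventually_ge_atTop (1 / (b - b'))] with k hk1 hk2 hk3
      set n : ℤ := ⌊s (q k)⌋ with hn
      have hn1 : (1 : ℝ) ≤ (n : ℝ) := by exact_mod_cast hk1
      have hn0 : (0 : ℝ) < (n : ℝ) := by linarith
      have hbb : 0 < b - b' := by linarith
      have hcard : ((ICl_finite s v m hs (q k)).toFinset.card : ℝ) = ((ICl s v m (q k)).ncard : ℝ) := by
        rw [Set.ncard_eq_toFinset_card _ (ICl_finite s v m hs (q k))]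
      rw [hcard]
      have h1 : ¬ ((ICl s v m (q k)).ncard : ℝ) * (8 * ((m n.toNat : ℝ) + 1) ^ (m n.toNat)) < (n : ℝ) ^ b :=
        hqE k
      rw [not_lt] at h1
      have h2 : 8 * ((m n.toNat : ℝ) + 1) ^ (m n.toNat) ≤ (n : ℝ) ^ (1 / ((m n.toNat : ℝ) + 1)) := by
        rcases hmP n.toNat with h3 | h3
        · omega
        · have h4 : ((n.toNat : ℕ) : ℝ) = (n : ℝ) := by
            have h5 : ((n.toNat : ℕ) : ℤ) = n := Int.toNat_of_nonneg (by omega)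
            exact_mod_cast h5
          rw [h4] at h3
          exact h3
      have h3 : (n : ℝ) ^ (1 / ((m n.toNat : ℝ) + 1)) ≤ (n : ℝ) ^ (b - b') := by
        refine Real.rpow_le_rpow_of_exponent_le hn1 ?_
        rw [div_le_iff₀ (by positivity)]
        rw [div_le_iff₀ hbb] at hk3
        linarith
      have h4 : (n : ℝ) ^ b ≤ ((ICl s v m (q k)).ncard : ℝ) * (n : ℝ) ^ (b - b') :=
        h1.trans (mul_le_mul_of_nonneg_left (h2.trans h3) (Nat.cast_nonneg _))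
      have h5 : (n : ℝ) ^ b = (n : ℝ) ^ b' * (n : ℝ) ^ (b - b') := by
        rw [← Real.rpow_add hn0]
        congr 1
        ring
      rw [h5] at h4
      exact le_of_mul_le_mul_right h4 (Real.rpow_pos_of_pos hn0 _)
    · intro j ε hε
      have hmr : Tendsto (fun k => (m ⌊s (q k)⌋.toNat : ℝ)) atTop atTop :=
        tendsto_natCast_atTop_atTop.comp hmt
      filter_upwards [hmt.eventually_ge_atTop (j + 1), hmr.eventually_ge_atTop (1 / ε)] with k hk1 hk2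
      intro i hi
      rw [Set.Finite.mem_toFinset] at hi
      have h1 := hi.2 j (by omega)
      set M : ℝ := (m ⌊s (q k)⌋.toNat : ℝ) with hM
      have hM0 : 0 < M := lt_of_lt_of_le (by positivity) hk2
      have a1 : 0 ≤ M * v i j := mul_nonneg hM0.le (hv i j).1
      have a2 : 0 ≤ M * v (q k) j := mul_nonneg hM0.le (hv (q k) j).1
      have b1 := Nat.floor_le a1
      have b2 := Nat.lt_floor_add_one (M * v i j)
      have b3 := Nat.floor_le a2
      have b4 := Nat.lt_floor_add_one (M * v (q k) j)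
      rw [h1] at b1 b2
      have h2 : |M * v i j - M * v (q k) j| ≤ 1 := by
        rw [abs_le]
        constructor <;> linarith
      have h3 : M * |v i j - v (q k) j| ≤ 1 := by
        rw [← mul_sub, abs_mul, abs_of_pos hM0] at h2
        exact h2
      have h4 : 1 ≤ M * ε := by
        rw [div_le_iff₀ hε] at hk2
        linarith
      by_contra hc
      rw [not_le] at hc
      have := mul_lt_mul_of_pos_left hc hM0
      linarith

end Pool.Agent.LL
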