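import Pool.Agent.helper62.EN.SpecP
import Pool.Agent.helper80.LL.INA

/-!
# From averages of eigenfunctions to single eigenfunctions outside a thin set
-/

set_option autoImplicit false

open scoped MatrixGroups ContDiff Topology UpperHalfPlane ComplexConjugate
open UpperHalfPlane MeasureTheory Filter Set

namespace Pool.Agent.LL

open Pool.Agent.EN (MG mkM)

theorem IND_mk (Γ : Subgroup SL(2, ℝ)) : Continuous (mkM Γ) := continuous_quotient_mk'

/-- the integral of `V |u|²` -/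
noncomputable def IA (Γ : Subgroup SL(2, ℝ)) (F : Set ℍ) (V : MG Γ → ℝ) (u : ℍ → ℂ) : ℝ :=
  ∫ z in F, V (mkM Γ z) * ‖u z‖ ^ 2

theorem IND_norm {F : Set ℍ} {u : ℍ → ℂ} (h : ∫ z in F, u z * conj (u z) = 1) :
    IntegrableOn (fun z => ‖u z‖ ^ 2) F ∧ ∫ z in F, ‖u z‖ ^ 2 = 1 := by
  have e1 : (fun z => u z * conj (u z)) = fun z => ((‖u z‖ ^ 2 : ℝ) : ℂ) := by
    funext z
    rw [Complex.mul_conj, Complex.normSq_eq_norm_sq]
  have h1 : IntegrableOn (fun z => u z * conj (u z)) F := by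
    by_contra hc
    rw [integral_undef hc] at h
    exact zero_ne_one h
  rw [e1] at h h1
  have h2 : IntegrableOn (fun z => ‖u z‖ ^ 2) F := by
    have h3 := h1.re
    refine h3.congr (Eventually.of_forall fun z => ?_)
    exact Complex.ofReal_re _
  refine ⟨h2, ?_⟩
  rw [integral_complex_ofReal] at h
  exact_mod_cast h

theorem IND_int {Γ : Subgroup SL(2, ℝ)} {F : Set ℍ} {V : MG Γ → ℝ} (hV : Continuous V) {B : ℝ}
    (hB : ∀ x, |V x| ≤ B) {u : ℍ → ℂ} (h : ∫ z in F, u z * conj (u z) = 1) :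
    IntegrableOn (fun z => V (mkM Γ z) * ‖u z‖ ^ 2) F := by
  refine Integrable.bdd_mul (c := B) (IND_norm h).1
    ((hV.comp (IND_mk Γ)).measurable.aestronglyMeasurable) (Eventually.of_forall fun z => ?_)
  rw [Real.norm_eq_abs]
  exact hB _

theorem IND_bd {Γ : Subgroup SL(2, ℝ)} {F : Set ℍ} {V : MG Γ → ℝ} (hV : Continuous V) {B : ℝ}
    (hB : ∀ x, |V x| ≤ B) {u : ℍ → ℂ} (h : ∫ z in F, u z * conj (u z) = 1) : |IA Γ F V u| ≤ B := by
  have h1 := IND_int (Γ := Γ) hV hB h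
  obtain ⟨h2, h3⟩ := IND_norm h
  have h4 : |IA Γ F V u| ≤ ∫ z in F, B * ‖u z‖ ^ 2 := by
    unfold IA
    rw [← Real.norm_eq_abs]
    refine (norm_integral_le_integral_norm _).trans ?_
    refine integral_mono h1.norm (h2.const_mul B) fun z => ?_
    show ‖V (mkM Γ z) * ‖u z‖ ^ 2‖ ≤ B * ‖u z‖ ^ 2
    rw [norm_mul, Real.norm_eq_abs, Real.norm_eq_abs, abs_of_nonneg (sq_nonneg ‖u z‖)]
    exact mul_le_mul_of_nonneg_right (hB _) (sq_nonneg _)
  rwa [integral_const_mul, h3, mul_one] at h4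

theorem IND_sub {Γ : Subgroup SL(2, ℝ)} {F : Set ℍ} {V W : MG Γ → ℝ} (hV : Continuous V)
    (hW : Continuous W) {B C : ℝ} (hB : ∀ x, |V x| ≤ B) (hC : ∀ x, |W x| ≤ C) {u : ℍ → ℂ}
    (h : ∫ z in F, u z * conj (u z) = 1) :
    IA Γ F V u - IA Γ F W u = IA Γ F (fun x => V x - W x) u := by
  unfold IA
  rw [← integral_sub (IND_int hV hB h) (IND_int hW hC h)]
  refine integral_congr_ae (Eventually.of_forall fun z => ?_)
  show V (mkM Γ z) * ‖u z‖ ^ 2 - W (mkM Γ z) * ‖u z‖ ^ 2 = (V (mkM Γ z) - W (mkM Γ z)) * ‖u z‖ ^ 2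
  ring

/-- **From averages to single eigenfunctions.** Let `Q` hold for all weak limits of averages over
`N_k ≥ r_k^(b - o(1))` orthonormal eigenfunctions. Then in every orthonormal sequence of eigenfunctions
one can discard less than `r^b` members of each window `[r, r + 1]` such that `Q` holds for every weak
limit of the others. -/
theorem IND (hX : EN.XTM_stmt) (Γ : Subgroup SL(2, ℝ)) (F : Set ℍ) (hΓ : QU.SurfaceGroup Γ)
    (b : ℝ) (hb0 : 0 ≤ b) (hb1 : b ≤ 1) (Q : Measure (MG Γ) → Prop)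
    (H : ∀ (r : ℕ → ℝ) (N : ℕ → ℕ) (s : ∀ k, Fin (N k) → ℝ) (φ : ∀ k, Fin (N k) → ℍ → ℂ)
      (ν : Measure (MG Γ)), Tendsto r atTop atTop → (∀ k, RS.EFam Γ F (r k) (N k) (s k) (φ k)) →
      (∀ k, 1 ≤ N k) → (∀ b' < b, ∀ᶠ k in atTop, r k ^ b' ≤ N k) → IsFiniteMeasure ν →
      (∀ V : MG Γ → ℝ, Continuous V →
        Tendsto (fun k => (∑ j, ∫ z in F, V (mkM Γ z) * ‖φ k j z‖ ^ 2) / (N k : ℝ)) atTop
          (𝓝 (∫ x, V x ∂ν))) → Q ν)
    (s : ℕ → ℝ) (φ : ℕ → ℍ → ℂ) (hs : Tendsto s atTop atTop) (hE : ∀ i, RS.Eig Γ (s i) (φ i))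
    (hO : ∀ i j, ∫ z in F, φ i z * (starRingEnd ℂ) (φ j z) = if i = j then 1 else 0) :
    ∃ Ex : Set ℕ, (∀ r : ℝ, 1 ≤ r → {i | i ∈ Ex ∧ r ≤ s i ∧ s i ≤ r + 1}.Finite ∧
      2 * (({i | i ∈ Ex ∧ r ≤ s i ∧ s i ≤ r + 1}.ncard : ℕ) : ℝ) ≤ r ^ b) ∧
    ∀ q : ℕ → ℕ, Tendsto q atTop atTop → (∀ k, q k ∉ Ex) →
      ∀ ν : Measure (MG Γ), IsFiniteMeasure ν →
        (∀ V : MG Γ → ℝ, Continuous V →
          Tendsto (fun k => ∫ z in F, V (mkM Γ z) * ‖φ (q k) z‖ ^ 2) atTop (𝓝 (∫ x, V x ∂ν))) →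
        Q ν := by
  classical
  obtain ⟨hc, ht2, hsc⟩ := hX Γ hΓ
  have hO1 : ∀ i, ∫ z in F, φ i z * conj (φ i z) = 1 := fun i => by rw [hO i i, if_pos rfl]
  -- a dense sequence of continuous functions
  set W : ℕ → C(MG Γ, ℝ) := TopologicalSpace.denseSeq C(MG Γ, ℝ) with hW
  have hWn : ∀ j x, |W j x| ≤ ‖W j‖ := fun j x => by
    rw [← Real.norm_eq_abs]
    exact (W j).norm_coe_le_norm x
  set v : ℕ → ℕ → ℝ := fun i j => (1 + IA Γ F (W j) (φ i) / (1 + ‖W j‖)) / 2 with hvd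
  have hv : ∀ i j, 0 ≤ v i j ∧ v i j ≤ 1 := by
    intro i j
    have h1 := IND_bd (Γ := Γ) (W j).continuous (hWn j) (hO1 i)
    have h2 : 0 < 1 + ‖W j‖ := by positivity
    have h3 : |IA Γ F (W j) (φ i) / (1 + ‖W j‖)| ≤ 1 := by
      rw [abs_div, abs_of_pos h2, div_le_one h2]
      linarith
    rw [abs_le] at h3
    simp only [hvd]
    constructor <;> linarith
  obtain ⟨Ex, hEx1, hEx2⟩ := IND_abs s v b hs hv hb0 hb1
  refine ⟨Ex, hEx1, fun q hq hqE ν hν hlim => ?_⟩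
  obtain ⟨r, S, hr, hS0, hSw, hSn, hSv⟩ := hEx2 q hq hqE
  have hcard0 : ∀ k, 0 < (S k).card := fun k => Finset.card_pos.2 (hS0 k)
  refine H r (fun k => (S k).card) (fun k j => s ((S k).orderEmbOfFin rfl j))
    (fun k j => φ ((S k).orderEmbOfFin rfl j)) ν hr (fun k => ⟨fun j => ?_, fun j => hE _, fun i j => ?_⟩)
    (fun k => hcard0 k) hSn hν (fun V hV => ?_)
  · exact hSw k _ (Finset.orderEmbOfFin_mem (S k) rfl j)
  · rw [hO]
    by_cases hij : i = j
    · rw [if_pos hij, hij, if_pos rfl]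
    · rw [if_neg hij, if_neg fun he => hij (((S k).orderEmbOfFin rfl).injective he)]
  · -- the averages have the same limit
    set V' : C(MG Γ, ℝ) := ⟨V, hV⟩ with hV'
    have hVn : ∀ x, |V x| ≤ ‖V'‖ := fun x => by
      rw [← Real.norm_eq_abs]
      exact V'.norm_coe_le_norm x
    have key : ∀ ε : ℝ, 0 < ε → ∀ᶠ k in atTop, ∀ i ∈ S k,
        |IA Γ F V (φ i) - IA Γ F V (φ (q k))| ≤ ε := by
      intro ε hε
      obtain ⟨j, hj⟩ : ∃ j, dist V' (W j) < ε / 4 := by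
        have hd := TopologicalSpace.denseRange_denseSeq C(MG Γ, ℝ)
        obtain ⟨_, hj, ⟨j, rfl⟩⟩ := Metric.dense_iff.1 hd V' (ε / 4) (by positivity)
        refine ⟨j, ?_⟩
        rw [dist_comm]
        exact hj
      have hd : ∀ x, |V x - W j x| ≤ ε / 4 := fun x => by
        rw [← Real.dist_eq]
        exact (ContinuousMap.dist_apply_le_dist (f := V') (g := W j) x).trans hj.le
      have hdi : ∀ i, |IA Γ F V (φ i) - IA Γ F (W j) (φ i)| ≤ ε / 4 := fun i => by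
        rw [IND_sub hV (W j).continuous hVn (hWn j) (hO1 i)]
        exact IND_bd (hV.sub (W j).continuous) hd (hO1 i)
      have hp : 0 < 1 + ‖W j‖ := by positivity
      filter_upwards [hSv j (ε / (4 * (1 + ‖W j‖))) (by positivity)] with k hk i hi
      have h1 := hk i hi
      have h2 : v i j - v (q k) j = (IA Γ F (W j) (φ i) - IA Γ F (W j) (φ (q k))) / (2 * (1 + ‖W j‖)) := by
        simp only [hvd]
        field_simp
        ring
      rw [h2, abs_div, abs_of_pos (by positivity : 0 < 2 * (1 + ‖W j‖)), div_le_iff₀ (by positivity)] at h1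
      have h3 : ε / (4 * (1 + ‖W j‖)) * (2 * (1 + ‖W j‖)) = ε / 2 := by
        field_simp
        norm_num
      rw [h3] at h1
      have h4 := hdi i
      have h5 := hdi (q k)
      rw [abs_le] at h1 h4 h5 ⊢
      constructor <;> linarith
    have hdiff : Tendsto (fun k => (∑ j : Fin (S k).card, ∫ z in F, V (mkM Γ z) *
        ‖φ ((S k).orderEmbOfFin rfl j) z‖ ^ 2) / ((S k).card : ℝ) -
        ∫ z in F, V (mkM Γ z) * ‖φ (q k) z‖ ^ 2) atTop (𝓝 0) := by
      rw [Metric.tendsto_atTop]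
      intro ε hε
      obtain ⟨K, hK⟩ := eventually_atTop.1 (key (ε / 2) (by positivity))
      refine ⟨K, fun k hk => ?_⟩
      have hn : (0 : ℝ) < ((S k).card : ℝ) := by exact_mod_cast hcard0 k
      have h1 : (∑ j : Fin (S k).card, ∫ z in F, V (mkM Γ z) *
          ‖φ ((S k).orderEmbOfFin rfl j) z‖ ^ 2) / ((S k).card : ℝ) -
          ∫ z in F, V (mkM Γ z) * ‖φ (q k) z‖ ^ 2 =
          (∑ j : Fin (S k).card, (IA Γ F V (φ ((S k).orderEmbOfFin rfl j)) - IA Γ F V (φ (q k)))) /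
            ((S k).card : ℝ) := by
        rw [Finset.sum_sub_distrib, Finset.sum_const, Finset.card_univ, Fintype.card_fin, sub_div,
          nsmul_eq_mul, mul_div_cancel_left₀ _ hn.ne']
        rfl
      rw [dist_zero_right, Real.norm_eq_abs, h1, abs_div, abs_of_pos hn]
      have h2 : |∑ j : Fin (S k).card, (IA Γ F V (φ ((S k).orderEmbOfFin rfl j)) -
          IA Γ F V (φ (q k)))| ≤ (S k).card * (ε / 2) := by
        refine (Finset.abs_sum_le_sum_abs _ _).trans ?_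
        refine (Finset.sum_le_card_nsmul _ _ (ε / 2) fun j _ =>
          hK k hk _ (Finset.orderEmbOfFin_mem (S k) rfl j)).trans ?_
        rw [Finset.card_univ, Fintype.card_fin, nsmul_eq_mul]
      rw [div_lt_iff₀ hn]
      have h3 : ((S k).card : ℝ) * (ε / 2) < ε * (S k).card := by nlinarith
      linarith
    have hfin := hdiff.add (hlim V hV)
    rw [zero_add] at hfin
    refine hfin.congr fun k => ?_
    ring

end Pool.Agent.LL
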