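import Pool.Agent.helper62.EN.All
import Pool.Agent.helper88.LL.BIR
import Pool.Agent.helper47.LL.BTS
import Pool.Agent.helper68.LL.CHN
import Pool.Agent.helper27.LL.LEV
import Pool.Agent.helper68.LL.INF
import Pool.Agent.helper88.LL.SUB
import Pool.Agent.helper51.LL.BCT
import Pool.Agent.helper98.LL.LOC
import Pool.Agent.helper45.LL.BXR
import Pool.Agent.helper98.LL.COR
import Pool.Agent.helper9.LL.HAM
import Pool.Agent.helper18.LL.KAT
import Pool.Agent.helper48.LL.CVB
import Pool.Agent.helper73.LL.JL1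
import Pool.Agent.helper39.LL.CRS
import Pool.Agent.helper54.LL.KFN
import Pool.Agent.helper51.LL.CVD
import Pool.Agent.helper25.LL.WGT
import Pool.Agent.helper8.LL.WGB
import Pool.Agent.helper40.LL.ENR
import Pool.Agent.helper42.LL.EN2
import Pool.Agent.helper41.LL.VBL
import Pool.Agent.helper52.LL.LBM
import Pool.Agent.helper65.LL.ACM
import Pool.Agent.helper47.LL.MDP
import Pool.Agent.helper13.LL.ENG
import Pool.Agent.helper71.LL.FIN
import Pool.Agent.helper80.LL.IND

/-!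
# Project LL (MP_07c750_an): assembly
-/

set_option autoImplicit false

open scoped MatrixGroups ContDiff Topology UpperHalfPlane
open UpperHalfPlane MeasureTheory Filter Set

namespace Pool.Agent.LL

open Pool.Agent.EN (XG MG mkM fl pr)

theorem A_BIR : BIR_stmt := BIR_proof
theorem A_BTS : BTS_stmt := BTS_proof A_BIR
theorem A_CHN : CHN_stmt := CHN_proof
theorem A_LEV : LEV_stmt := LEV_proof A_CHN
theorem A_INF : INF_stmt := INF_proof
theorem A_SUB : SUB_stmt := SUB_proof A_INF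
theorem A_BCT : BCT_stmt := BCT_proof A_SUB A_INF
theorem A_LOC : LOC_stmt := LOC_proof A_BTS A_LEV A_INF A_BCT
theorem A_BXR : BXR_stmt := BXR_proof
theorem A_COR : COR_stmt := COR_proof
theorem A_HAM : HAM_stmt := HAM_proof
theorem A_KAT : KAT_stmt := KAT_proof A_BTS A_BXR A_COR A_HAM
theorem A_CVB : CVB_stmt := CVB_proof
theorem A_JL1 : JL1_stmt := JL1_proof A_KAT A_CVB
theorem A_CRS : CRS_stmt := CRS_proof
theorem A_KFN : KFN_stmt := KFN_proof
theorem A_CVD : CVD_stmt := CVD_proof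
theorem A_WGT : WGT_stmt := WGT_proof
theorem A_WGB : WGB_stmt := WGB_proof A_WGT A_BXR
theorem A_ENR : ENR_stmt := ENR_proof A_CRS A_KFN A_CVD A_BXR A_WGT
theorem A_EN2 : EN2_stmt := EN2_proof A_ENR A_WGT
theorem A_VBL : VBL_stmt := VBL_proof
theorem A_LBM : LBM_stmt := LBM_proof A_VBL
theorem A_ACM : ACM_stmt := ACM_proof A_LBM
theorem A_MDP : MDP_stmt := MDP_proof
theorem A_ENG : ENG_stmt := ENG_proof A_EN2 A_ACM A_MDP A_WGB A_WGT
theorem A_FIN : FIN_stmt := FIN_proof A_LOC A_KAT A_JL1 A_ENG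

/-- the mass of a small set in terms of its Hausdorff dimension -/
theorem dim_bound (hF : FIN_stmt) {Γ : Subgroup SL(2, ℝ)} (hΓ : QU.SurfaceGroup Γ) {μ : Measure (XG Γ)}
    (hμ : IsProbabilityMeasure μ) (hinv : ∀ t, μ.map (fl Γ t) = μ) {β : ℝ}
    (hKS : (((1 + β) / 2 : ℝ) : EReal) ≤ EN.KS μ (fl Γ 1)) {E : Set (MG Γ)} (hE : MeasurableSet E)
    (h0 : volume {z : ℍ | mkM Γ z ∈ E} = 0) {d : ℝ} (hd1 : 1 ≤ d) (hd2 : d ≤ 2)
    (hd : dimH {z : ℍ | mkM Γ z ∈ E} ≤ ENNReal.ofReal d) :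
    μ.real (pr Γ ⁻¹' E) ≤ (1 - β) / (3 - d) := by
  rcases eq_or_lt_of_le hd2 with rfl | hlt
  · have h := hF Γ μ E 1 β hΓ hμ hinv hE one_pos le_rfl (Or.inl ⟨rfl, h0⟩) hKS
    have e : (3 : ℝ) - 2 = 2 - 1 := by norm_num
    rw [e]
    exact h
  · have key : ∀ α : ℝ, d - 1 < α → α < 1 → μ.real (pr Γ ⁻¹' E) * (2 - α) ≤ 1 - β := by
      intro α h1 h2
      have hα : 0 < α := by linarith
      have h3 : Measure.hausdorffMeasure (1 + α) {z : ℍ | mkM Γ z ∈ E} = 0 := by
        have h4 : dimH {z : ℍ | mkM Γ z ∈ E} < ((1 + α).toNNReal : ENNReal) := by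
          refine lt_of_le_of_lt hd ?_
          rw [ENNReal.ofReal]
          exact_mod_cast (Real.toNNReal_lt_toNNReal_iff (by linarith)).2 (by linarith)
        have h5 := hausdorffMeasure_of_dimH_lt h4
        rwa [Real.coe_toNNReal _ (by linarith)] at h5
      have h := hF Γ μ E α β hΓ hμ hinv hE hα h2.le (Or.inr ⟨h2, h3⟩) hKS
      rwa [le_div_iff₀ (by linarith)] at h
    rw [le_div_iff₀ (by linarith)]
    -- let `α → d - 1`
    by_contra hc
    rw [not_le] at hc
    set m := μ.real (pr Γ ⁻¹' E) with hm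
    have hm0 : 0 ≤ m := measureReal_nonneg
    have hm1 : m ≤ 1 := by
      rw [hm]
      exact measureReal_le_one
    set η := min ((m * (3 - d) - (1 - β)) / 2) ((2 - d) / 2) with hη
    have hη1 : 0 < η := lt_min (by linarith) (by linarith)
    have hη2 : η ≤ (m * (3 - d) - (1 - β)) / 2 := min_le_left _ _
    have hη3 : η ≤ (2 - d) / 2 := min_le_right _ _
    have h := key (d - 1 + η) (by linarith) (by linarith)
    nlinarith

end Pool.Agent.LL
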